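import Pool.Agent.H43.CM.B.B6

/-!
# CM, job B8: the longest element, downward and upward induction

`w0 = Fin.revPerm`. `exists_asc`: if `x` has no ascent then `x` is strictly decreasing, so `x = w0`
(`Fin.strictAnti`-type argument: `x ∘ rev` is strictly monotone, so the identity: `StrictMono` on `Fin n`
that is bijective is `id`, cf. `Fin.strictMono_unique` / `OrderIso` uniqueness).
`down_induction`: strong induction on `n * n - len x` (`len x ≤ n * n`), using `len_mul_asc`.
`ble_one`: `ble 1 v`: strong induction on `len v`: if `v ≠ 1` there is a descent `q` (`exists_dsc`), `ble 1 (v * s)` by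
induction and `ble (v * s) v`. `ble_rev`: similarly by `down_induction` (`ble x w0`).
`sr_ble`: if `s_q ≤ u` is expressed as `∃ j, j.val ≤ q ∧ q < (u j).val` then
`ble (sr q hq) u`: `rk (sr q hq) i k ≤ rk u i k`: `rk (sr q hq) i k = max-type formula`: for `k ≠ q+1` it equals `rk 1 i k ≤ rk u i k`
(`ble_one`, `rk_mul_sr_ne 1`); for `k = q+1`: `rk (sr q hq) i (q+1) = rk 1 i q + [i ≤ q+1]` where `rk 1 i q = q - i` (truncated). For `i ≤ q`:
`= (q - i) + 1 = rk 1 i (q+1) ≤ rk u i (q+1)`; for `i = q+1`: `= 1 ≤ rk u (q+1) (q+1)` by the hypothesis; for `i > q+1`: `= 0`.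
-/

open Finset

noncomputable section

namespace CMT

variable {n : ℕ}

theorem b8_rev_mul_rev : (Fin.revPerm : Equiv.Perm (Fin n)) * Fin.revPerm = 1 := by
  ext i
  simp

theorem exists_asc (v : Equiv.Perm (Fin n)) (h : v ≠ Fin.revPerm) :
    ∃ (q : ℕ) (hq : q + 1 < n), asc v q hq := by
  have hw : v * Fin.revPerm ≠ 1 := by
    intro hc
    apply h
    have h1 : v * Fin.revPerm * Fin.revPerm = Fin.revPerm := by rw [hc, one_mul]
    rwa [mul_assoc, b8_rev_mul_rev, mul_one] at h1
  obtain ⟨q, hq, hd⟩ := exists_dsc hw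
  refine ⟨n - 2 - q, by omega, ?_⟩
  have e1 : Fin.rev (q1 q hq) = q0 (n - 2 - q) (by omega) := by
    apply Fin.ext
    simp only [q0, q1, Fin.val_rev]
    omega
  have e2 : Fin.rev (q0 q hq) = q1 (n - 2 - q) (by omega) := by
    apply Fin.ext
    simp only [q0, q1, Fin.val_rev]
    omega
  have hd' : v (Fin.rev (q1 q hq)) < v (Fin.rev (q0 q hq)) := hd
  rw [e1, e2] at hd'
  exact hd'

theorem b8_len_le (x : Equiv.Perm (Fin n)) : len x ≤ n * n := by
  unfold len
  refine (card_le_univ _).trans ?_
  simp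

theorem down_induction {P : Equiv.Perm (Fin n) → Prop} (h0 : P Fin.revPerm)
    (h : ∀ x q hq, asc x q hq → P (x * sr q hq) → P x) (x : Equiv.Perm (Fin n)) : P x := by
  have key : ∀ m : ℕ, ∀ x : Equiv.Perm (Fin n), n * n - len x = m → P x := by
    intro m
    induction m using Nat.strong_induction_on with
    | _ m ih =>
      intro x hx
      by_cases hr : x = Fin.revPerm
      · rw [hr]; exact h0
      · obtain ⟨q, hq, ha⟩ := exists_asc x hr
        have h1 := len_mul_asc x q hq ha
        have h2 := b8_len_le (x * sr q hq)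
        exact h x q hq ha (ih (n * n - len (x * sr q hq)) (by omega) _ rfl)
  exact key _ x rfl

theorem ble_one (v : Equiv.Perm (Fin n)) : ble 1 v := by
  have key : ∀ m : ℕ, ∀ v : Equiv.Perm (Fin n), len v = m → ble 1 v := by
    intro m
    induction m using Nat.strong_induction_on with
    | _ m ih =>
      intro v hv
      by_cases h1 : v = 1
      · rw [h1]; exact ble_refl 1
      · obtain ⟨q, hq, hd⟩ := exists_dsc h1
        have h2 := len_mul_dsc v q hq hd
        exact ble_trans (ih (len (v * sr q hq)) (by omega) _ rfl) (ble_mul_sr_of_dsc hd)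
  exact key _ v rfl

theorem ble_rev (v : Equiv.Perm (Fin n)) : ble v Fin.revPerm :=
  down_induction (P := fun x => ble x Fin.revPerm) (ble_refl _)
    (fun _ _ _ ha hx => ble_trans (ble_mul_sr_of_asc ha) hx) v

theorem b8_rk_one_zero (i q : ℕ) (h : q ≤ i) : rk (1 : Equiv.Perm (Fin n)) i q = 0 := by
  unfold rk
  rw [card_eq_zero, filter_eq_empty_iff]
  rintro j _ ⟨h1, h2⟩
  simp only [Equiv.Perm.one_apply] at h2
  omega

theorem sr_ble {u : Equiv.Perm (Fin n)} (q : ℕ) (hq : q + 1 < n)
    (h : ∃ j : Fin n, j.val ≤ q ∧ q < (u j).val) : ble (sr q hq) u := by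
  intro i k
  by_cases hk : k = q + 1
  · subst hk
    have h1 := rk_mul_sr_q1 (1 : Equiv.Perm (Fin n)) q hq i
    rw [one_mul] at h1
    have h2 := rk_q1 (1 : Equiv.Perm (Fin n)) q hq i
    have h3 := ble_one u i (q + 1)
    have e0 : ((1 : Equiv.Perm (Fin n)) (q0 q hq)).val = q := rfl
    have e1 : ((1 : Equiv.Perm (Fin n)) (q1 q hq)).val = q + 1 := rfl
    rw [e1] at h1
    rw [e0] at h2
    rcases lt_trichotomy i (q + 1) with hi | hi | hi
    · rw [if_pos (by omega)] at h1 h2
      omega
    · rw [if_pos (by omega), b8_rk_one_zero i q (by omega)] at h1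
      rw [h1, zero_add]
      obtain ⟨j, hj1, hj2⟩ := h
      unfold rk
      rw [Nat.succ_le_iff, card_pos]
      exact ⟨j, by simp only [mem_filter, mem_univ, true_and]; omega⟩
    · rw [if_neg (by omega), b8_rk_one_zero i q (by omega)] at h1
      omega
  · have h1 := rk_mul_sr_ne (1 : Equiv.Perm (Fin n)) q hq i k hk
    rw [one_mul] at h1
    rw [h1]
    exact ble_one u i k

/-- `x ≤ v` iff `x s ≤ v` when `v` has a descent -/
theorem ble_mul_sr_iff {x v : Equiv.Perm (Fin n)} {q : ℕ} {hq : q + 1 < n} (hv : dsc v q hq) :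
    ble (x * sr q hq) v ↔ ble x v := by
  constructor
  · intro h
    have := lift_a q hq h hv
    rwa [mul_sr_sr] at this
  · intro h
    exact lift_a q hq h hv

end CMT
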