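import Pool.Agent.H43.CM.B.B0

/-!
# CM, job B3: Hasse edges give covers, rank functions of `u * (a b)`  (B6, converse part)

`rk_swap_mid`, `rk_swap_out`: for `a < b`: the values of `u' = u * swap a b` at the positions `a`, `b` are
`u b`, `u a`, the others are unchanged. For `k ≤ a` or `b < k` the set of values at the positions `< k` is
the same (bijection `j ↦ swap a b j`, cf. `rk_mul_sr_ne` in `B/B0`); for `a < k ≤ b` the value `u a` is replaced by
`u b`: `rk u' i k + [i ≤ u a] = rk u i k + [i ≤ u b]`. (Remove the element `a` from both counting sets.)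
`ble_swap`: if `u b < u a` then `rk u' ≤ rk u`.
-/

open Finset

noncomputable section

namespace CMT

variable {n : ℕ}

theorem rk_swap_out (u : Equiv.Perm (Fin n)) {a b : Fin n} (hab : a < b) (i k : ℕ)
    (hk : k ≤ a.val ∨ b.val < k) : rk (u * Equiv.swap a b) i k = rk u i k := by
  classical
  have hab' : a.val < b.val := hab
  have hss : ∀ j : Fin n, Equiv.swap a b (Equiv.swap a b j) = j := fun j => by
    rw [← Equiv.Perm.mul_apply, Equiv.swap_mul_self, Equiv.Perm.one_apply]
  unfold rk
  have aux : ∀ j : Fin n, j.val < k → (Equiv.swap a b j).val < k := by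
    intro j hj
    by_cases h0 : j = a
    · subst h0
      rw [Equiv.swap_apply_left]
      omega
    · by_cases h1 : j = b
      · subst h1
        rw [Equiv.swap_apply_right]
        omega
      · rw [Equiv.swap_apply_of_ne_of_ne h0 h1]
        exact hj
  apply card_bij (fun j _ => Equiv.swap a b j)
  · intro j hj
    rw [mem_filter] at hj ⊢
    exact ⟨mem_univ _, aux j hj.2.1, hj.2.2⟩
  · intro x _ y _ h
    exact (Equiv.swap a b).injective h
  · intro j hj
    rw [mem_filter] at hj
    refine ⟨Equiv.swap a b j, ?_, hss j⟩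
    rw [mem_filter]
    refine ⟨mem_univ _, aux j hj.2.1, ?_⟩
    rw [Equiv.Perm.mul_apply, hss]
    exact hj.2.2

theorem rk_swap_mid (u : Equiv.Perm (Fin n)) {a b : Fin n} (hab : a < b) (i k : ℕ)
    (hk : a.val < k) (hk' : k ≤ b.val) :
    rk (u * Equiv.swap a b) i k + (if i ≤ (u a).val then 1 else 0)
      = rk u i k + (if i ≤ (u b).val then 1 else 0) := by
  classical
  have h1 : ∀ w : Equiv.Perm (Fin n), rk w i k =
      (if i ≤ (w a).val then 1 else 0) +
        ∑ j ∈ univ.erase a, if j.val < k ∧ i ≤ (w j).val then 1 else 0 := by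
    intro w
    unfold rk
    rw [card_filter, ← add_sum_erase univ _ (mem_univ a)]
    simp only [hk, true_and]
  rw [h1 (u * Equiv.swap a b), h1 u]
  have h2 : ∑ j ∈ univ.erase a, (if j.val < k ∧ i ≤ ((u * Equiv.swap a b) j).val then 1 else 0) =
      ∑ j ∈ univ.erase a, if j.val < k ∧ i ≤ (u j).val then 1 else 0 := by
    refine sum_congr rfl fun j hj => ?_
    by_cases hjk : j.val < k
    · have hja : j ≠ a := (mem_erase.1 hj).1
      have hjb : j ≠ b := by
        intro h
        subst h
        omega
      rw [Equiv.Perm.mul_apply, Equiv.swap_apply_of_ne_of_ne hja hjb]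
    · simp only [hjk, false_and]
  rw [h2, Equiv.Perm.mul_apply, Equiv.swap_apply_left]
  omega

theorem ble_swap {u : Equiv.Perm (Fin n)} {a b : Fin n} (hab : a < b) (h : u b < u a) :
    ble (u * Equiv.swap a b) u := by
  intro i k
  by_cases hk : k ≤ a.val ∨ b.val < k
  · rw [rk_swap_out u hab i k hk]
  · push Not at hk
    have h1 := rk_swap_mid u hab i k hk.1 hk.2
    have h2 : (u b).val < (u a).val := h
    split_ifs at h1 <;> omega

/-- strict inequality of the rank functions at `i = u a` -/
theorem rk_swap_lt {u : Equiv.Perm (Fin n)} {a b : Fin n} (hab : a < b) (h : u b < u a) (k : ℕ)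
    (hk : a.val < k) (hk' : k ≤ b.val) :
    rk (u * Equiv.swap a b) (u a).val k < rk u (u a).val k := by
  have h1 := rk_swap_mid u hab (u a).val k hk hk'
  have h2 : (u b).val < (u a).val := h
  rw [if_pos le_rfl, if_neg (by omega)] at h1
  omega

end CMT
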