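import Pool.Agent.H43.CM.B.B0

/-!
# CM, job B2: the lifting property  (B2)

Proof. By `rk_mul_sr_ne` only `k = q + 1` matters. Write `r u = rk u i q`, and for a permutation `u`
`x_u = [i ≤ u q]`, `y_u = [i ≤ u (q+1)]` (0 or 1). By `rk_q1`, `rk_q2`, `rk_mul_sr_q1`:
`rk u i (q+1) = r u + x_u`, `rk u i (q+2) = r u + x_u + y_u`, `rk (u * s) i (q+1) = r u + y_u`.
Hypotheses (from `ble w v`): `r w ≤ r v`, `r w + x_w ≤ r v + x_v`, `r w + x_w + y_w ≤ r v + x_v + y_v`.
`dsc v`: `y_v ≤ x_v` (as `v (q+1) < v q`); `asc w`: `x_w ≤ y_w`.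
(a) `r w + y_w ≤ r v + x_v`: if `x_v = 1` then it follows from `r w ≤ r v`; if `x_v = 0` then
    `y_v = 0` and `r w + x_w + y_w ≤ r v`. (b) `r w + x_w ≤ r v + y_v`: if `y_v = 1`: from `r w ≤ r v`;
    if `y_v = 0`: if `x_v = 0` it is the second hypothesis; if `x_v = 1`: `r w + x_w + y_w ≤ r v + 1` and
    `x_w ≤ y_w` give `x_w = 0` or `r w < r v`. (c) and (d) similarly; all are `omega` after `split_ifs`
    with the hypotheses `v (q+1) < v q` etc. on `.val`.
-/

open Finset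

noncomputable section

namespace CMT

variable {n : ℕ}

theorem lift_a {v w : Equiv.Perm (Fin n)} (q : ℕ) (hq : q + 1 < n) (h : ble w v)
    (hv : dsc v q hq) : ble (w * sr q hq) v := by
  intro i k
  by_cases hk : k = q + 1
  · subst hk
    have h1 := h i q
    have h2 := h i (q + 1)
    have h3 := h i (q + 2)
    rw [rk_q1 v q hq, rk_q1 w q hq] at h2
    rw [rk_q2 v q hq, rk_q2 w q hq] at h3
    rw [rk_mul_sr_q1, rk_q1 v q hq]
    have hv' : (v (q1 q hq)).val < (v (q0 q hq)).val := hv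
    split_ifs at * <;> omega
  · rw [rk_mul_sr_ne w q hq i k hk]
    exact h i k

theorem lift_b {v w : Equiv.Perm (Fin n)} (q : ℕ) (hq : q + 1 < n) (h : ble w v)
    (hv : dsc v q hq) (hw : asc w q hq) : ble w (v * sr q hq) := by
  intro i k
  by_cases hk : k = q + 1
  · subst hk
    have h1 := h i q
    have h2 := h i (q + 1)
    have h3 := h i (q + 2)
    rw [rk_q1 v q hq, rk_q1 w q hq] at h2
    rw [rk_q2 v q hq, rk_q2 w q hq] at h3
    rw [rk_mul_sr_q1, rk_q1 w q hq]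
    have hv' : (v (q1 q hq)).val < (v (q0 q hq)).val := hv
    have hw' : (w (q0 q hq)).val < (w (q1 q hq)).val := hw
    split_ifs at * <;> omega
  · rw [rk_mul_sr_ne v q hq i k hk]
    exact h i k

theorem lift_c {v w : Equiv.Perm (Fin n)} (q : ℕ) (hq : q + 1 < n) (h : ble w v)
    (hv : dsc v q hq) (hw : dsc w q hq) : ble (w * sr q hq) (v * sr q hq) := by
  intro i k
  by_cases hk : k = q + 1
  · subst hk
    have h1 := h i q
    have h2 := h i (q + 1)
    have h3 := h i (q + 2)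
    rw [rk_q1 v q hq, rk_q1 w q hq] at h2
    rw [rk_q2 v q hq, rk_q2 w q hq] at h3
    rw [rk_mul_sr_q1, rk_mul_sr_q1]
    have hv' : (v (q1 q hq)).val < (v (q0 q hq)).val := hv
    have hw' : (w (q1 q hq)).val < (w (q0 q hq)).val := hw
    split_ifs at * <;> omega
  · rw [rk_mul_sr_ne v q hq i k hk, rk_mul_sr_ne w q hq i k hk]
    exact h i k

theorem lift_d {v w : Equiv.Perm (Fin n)} (q : ℕ) (hq : q + 1 < n) (h : ble w v)
    (hv : asc v q hq) (hw : asc w q hq) : ble (w * sr q hq) (v * sr q hq) := by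
  intro i k
  by_cases hk : k = q + 1
  · subst hk
    have h1 := h i q
    have h2 := h i (q + 1)
    have h3 := h i (q + 2)
    rw [rk_q1 v q hq, rk_q1 w q hq] at h2
    rw [rk_q2 v q hq, rk_q2 w q hq] at h3
    rw [rk_mul_sr_q1, rk_mul_sr_q1]
    have hv' : (v (q0 q hq)).val < (v (q1 q hq)).val := hv
    have hw' : (w (q0 q hq)).val < (w (q1 q hq)).val := hw
    split_ifs at * <;> omega
  · rw [rk_mul_sr_ne v q hq i k hk, rk_mul_sr_ne w q hq i k hk]
    exact h i k

theorem ble_mul_sr_of_asc {v : Equiv.Perm (Fin n)} {q : ℕ} {hq : q + 1 < n} (hv : asc v q hq) :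
    ble v (v * sr q hq) := by
  have h := lift_a q hq (ble_refl (v * sr q hq)) ((dsc_mul_iff v q hq).mpr hv)
  rwa [mul_sr_sr] at h

theorem ble_mul_sr_of_dsc {v : Equiv.Perm (Fin n)} {q : ℕ} {hq : q + 1 < n} (hv : dsc v q hq) :
    ble (v * sr q hq) v :=
  lift_a q hq (ble_refl v) hv

end CMT
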