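import Pool.Agent.H43.CM.B.B3

/-!
# CM, job B3b: a Hasse edge changes the length by one

`len_hasse`: Let `u b < u a`, `a < b`, no `a < c < b` with `u b < u c < u a`. Count the inversions of `u` and
`u'`: the map `(x, y) ↦ (swap a b x, swap a b y)`, reordered, does not change the inversions with both entries
outside `{a, b}`; for `c < a`: the pairs `{c, a}, {c, b}` are inversions of `u` as often (0, 1 or 2) as of `u'`
(the set of the values at `a, b` is the same); similarly for `c > b`; for `a < c < b`: `u c < u b` or `u c > u a`; in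
both cases exactly one of `(a, c)`, `(c, b)` is an inversion for `u` and exactly one for `u'`; the pair `(a, b)` is an
inversion of `u` only. (A convenient way: `len u = ∑_{x<y} [u y < u x]` and compare, for every `c ∉ {a, b}`,
the contributions of the two unordered pairs `{c, a}`, `{c, b}`. Another way: `len u = ∑_k (rk-type sums)`: with
`rk` : `∑_{k ≤ n} ∑_{i ≤ n} rk u i k` is NOT the length; do not use it. Another way: write
`len u = #{(x, y) : x < y, u y < u x}` and use an explicit injection/surjection.)
-/

open Finset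

noncomputable section

namespace CMT

variable {n : ℕ}

private theorem b3b_nat (a b c x y z : ℕ) (hab : a < b) (hxy : y < x) (hca : c ≠ a) (hcb : c ≠ b)
    (hzx : z ≠ x) (hzy : z ≠ y) (hH : ¬ (a < c ∧ c < b ∧ y < z ∧ z < x)) :
    (if c < a ∧ x < z then 1 else 0) + (if c < b ∧ y < z then 1 else 0)
      + (if a < c ∧ z < x then 1 else 0) + (if b < c ∧ z < y then 1 else 0)
    = (if c < a ∧ y < z then 1 else 0) + (if c < b ∧ x < z then 1 else 0)
      + (if a < c ∧ z < y then 1 else 0) + (if b < c ∧ z < x then 1 else 0) := by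
  rcases lt_trichotomy c a with h1 | h1 | h1
  · simp only [h1, show c < b from by omega, show ¬ a < c from by omega, show ¬ b < c from by omega,
      true_and, false_and, if_false]
    omega
  · exact absurd h1 hca
  · rcases lt_trichotomy c b with h2 | h2 | h2
    · simp only [h1, h2, show ¬ c < a from by omega, show ¬ b < c from by omega,
        true_and, false_and, if_false]
      have h3 : ¬ (y < z ∧ z < x) := fun h => hH ⟨h1, h2, h.1, h.2⟩
      split_ifs <;> omega
    · exact absurd h2 hcb
    · simp only [h1, h2, show ¬ c < a from by omega, show ¬ c < b from by omega,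
        true_and, false_and, if_false]
      omega

private theorem b3b_sum1 {a b : Fin n} (hab : a ≠ b) (g : Fin n → ℕ) :
    ∑ x, g x = ∑ x ∈ (univ.erase a).erase b, g x + g a + g b := by
  rw [← Finset.add_sum_erase univ g (mem_univ a),
    ← Finset.add_sum_erase (univ.erase a) g (mem_erase.2 ⟨hab.symm, mem_univ b⟩)]
  omega

private theorem b3b_sum2 {a b : Fin n} (hab : a ≠ b) (f : Fin n → Fin n → ℕ) :
    ∑ x, ∑ y, f x y = ∑ x ∈ (univ.erase a).erase b, ∑ y ∈ (univ.erase a).erase b, f x y
      + ∑ c ∈ (univ.erase a).erase b, (f c a + f c b + f a c + f b c)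
      + f a a + f a b + f b a + f b b := by
  rw [b3b_sum1 hab]
  simp only [b3b_sum1 hab (f _), Finset.sum_add_distrib]
  ring

private theorem b3b_len (u : Equiv.Perm (Fin n)) :
    len u = ∑ x, ∑ y, (if x < y ∧ u y < u x then 1 else 0) := by
  unfold len
  rw [Finset.card_filter, ← Finset.univ_product_univ, Finset.sum_product]

theorem len_hasse {u : Equiv.Perm (Fin n)} {a b : Fin n} (h : Hasse u a b) :
    len u = len (u * Equiv.swap a b) + 1 := by
  obtain ⟨hab, hu, hH⟩ := h
  have hne : a ≠ b := hab.ne
  rw [b3b_len, b3b_len, b3b_sum2 hne, b3b_sum2 hne]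
  have ea : (u * Equiv.swap a b) a = u b := by simp
  have eb : (u * Equiv.swap a b) b = u a := by simp
  have ec : ∀ c, c ∈ (univ.erase a).erase b → (u * Equiv.swap a b) c = u c := by
    intro c hc
    rw [mem_erase, mem_erase] at hc
    rw [Equiv.Perm.mul_apply, Equiv.swap_apply_of_ne_of_ne hc.2.1 hc.1]
  have s1 : ∑ x ∈ (univ.erase a).erase b, ∑ y ∈ (univ.erase a).erase b,
      (if x < y ∧ (u * Equiv.swap a b) y < (u * Equiv.swap a b) x then 1 else 0) =
      ∑ x ∈ (univ.erase a).erase b, ∑ y ∈ (univ.erase a).erase b,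
      (if x < y ∧ u y < u x then 1 else 0) := by
    refine Finset.sum_congr rfl fun x hx => Finset.sum_congr rfl fun y hy => ?_
    rw [ec x hx, ec y hy]
  have s2 : ∑ c ∈ (univ.erase a).erase b,
      ((if c < a ∧ (u * Equiv.swap a b) a < (u * Equiv.swap a b) c then 1 else 0)
      + (if c < b ∧ (u * Equiv.swap a b) b < (u * Equiv.swap a b) c then 1 else 0)
      + (if a < c ∧ (u * Equiv.swap a b) c < (u * Equiv.swap a b) a then 1 else 0)
      + (if b < c ∧ (u * Equiv.swap a b) c < (u * Equiv.swap a b) b then 1 else 0)) =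
      ∑ c ∈ (univ.erase a).erase b,
      ((if c < a ∧ u a < u c then 1 else 0) + (if c < b ∧ u b < u c then 1 else 0)
      + (if a < c ∧ u c < u a then 1 else 0) + (if b < c ∧ u c < u b then 1 else 0)) := by
    refine Finset.sum_congr rfl fun c hc => ?_
    rw [ec c hc, ea, eb]
    rw [mem_erase, mem_erase] at hc
    have hca : c.val ≠ a.val := fun h' => hc.2.1 (Fin.ext h')
    have hcb : c.val ≠ b.val := fun h' => hc.1 (Fin.ext h')
    have hzx : (u c).val ≠ (u a).val := fun h' => hc.2.1 (u.injective (Fin.ext h'))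
    have hzy : (u c).val ≠ (u b).val := fun h' => hc.1 (u.injective (Fin.ext h'))
    have hH' : ¬ (a.val < c.val ∧ c.val < b.val ∧ (u b).val < (u c).val ∧ (u c).val < (u a).val) :=
      fun h' => hH c h'.1 h'.2.1 ⟨h'.2.2.1, h'.2.2.2⟩
    exact (b3b_nat a.val b.val c.val (u a).val (u b).val (u c).val hab hu hca hcb hzx hzy hH').symm
  rw [s1, s2, ea, eb]
  have hba : ¬ b < a := not_lt_of_gt hab
  have hu' : ¬ u a < u b := not_lt_of_gt hu
  simp only [lt_irrefl, false_and, if_false, hab, hu, hba, hu', and_true, and_false, if_true,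
    true_and, and_self]

theorem cov_of_hasse {u : Equiv.Perm (Fin n)} {a b : Fin n} (h : Hasse u a b) :
    cov (u * Equiv.swap a b) u :=
  ⟨ble_swap h.1 h.2.1, len_hasse h⟩

end CMT
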