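import Pool.Agent.H43.CM.B.B3

/-!
# CM, job B4: strict inequalities of the Bruhat order go through a Hasse edge

Proof. Let `a` be the first position with `w a ≠ u a` (exists as `w ≠ u`). The values at the positions `< a` agree,
so `rk w i a = rk u i a` for all `i`, and `ble w u` at `k = a + 1`, `i = w a` gives `w a ≤ u a` (`rk_succ`), so
`w a < u a`. The value `w a` is attained by `u` at a position `> a` (positions `< a` have other values), so there
is a least `b > a` with `w a ≤ u b` and `u b < u a`. `Hasse u a b`: if `a < c < b` and `u b < u c < u a` then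
`w a ≤ u c < u a`, contradicting the minimality of `b`. It remains to show `rk w i k ≤ rk u' i k`,
`u' = u * swap a b`. By `rk_swap_out`, `rk_swap_mid` this is clear unless `a < k ≤ b` and `u b < i ≤ u a`, and then it
means `rk w i k + 1 ≤ rk u i k`. For `a < c < k` either `u c < w a` or `u a < u c` (minimality of `b`, `u c ≠ u a`). So
with `m = #{c : a < c < k, u a < u c}`: `rk u (w a) k = rk u (w a) a + 1 + m`, `rk u i k = rk u i a + 1 + m`
(`i > u b ≥ w a`, `i ≤ u a`). `ble w u` at `(w a, k)`: `rk w (w a) k = rk w (w a) a + 1 + #{c : a < c < k, w a ≤ w c}`, so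
`#{c : a < c < k, w a ≤ w c} ≤ m`. Hence `rk w i k = rk w i a + 0 + #{c : a < c < k, i ≤ w c} ≤ rk u i a + m`, which
is `rk u i k - 1`. [Splitting of the counting set `{j < k}` into `j < a`, `j = a`, `a < j < k`.]
-/

open Finset

noncomputable section

namespace CMT

variable {n : ℕ}

/-- splitting of the counting set -/
theorem b4_split (w : Equiv.Perm (Fin n)) (a : Fin n) (i k : ℕ) (hk : a.val < k) :
    rk w i k = rk w i a.val + (if i ≤ (w a).val then 1 else 0)
      + (univ.filter fun c : Fin n => a < c ∧ c.val < k ∧ i ≤ (w c).val).card := by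
  classical
  unfold rk
  rw [card_filter, card_filter, card_filter]
  have h1 : (if i ≤ (w a).val then 1 else 0)
      = ∑ j : Fin n, if j = a then (if i ≤ (w j).val then 1 else 0) else 0 := by
    rw [Finset.sum_ite_eq' univ a]
    simp
  rw [h1, ← sum_add_distrib, ← sum_add_distrib]
  refine sum_congr rfl fun j _ => ?_
  rcases lt_trichotomy j a with h | h | h
  · have h2 : j.val < a.val := h
    have h3 : j.val < k := by omega
    have h4 : ¬ a < j := not_lt_of_gt h
    simp [h2, h3, h4, h.ne]
  · subst h
    simp [hk]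
  · have h2 : ¬ j.val < a.val := by
      have : a.val < j.val := h
      omega
    simp [h, h2, h.ne']

theorem exists_hasse {w u : Equiv.Perm (Fin n)} (h : ble w u) (hne : w ≠ u) :
    ∃ a b : Fin n, Hasse u a b ∧ ble w (u * Equiv.swap a b) := by
  classical
  have hex : (univ.filter fun j : Fin n => w j ≠ u j).Nonempty := by
    by_contra hc
    rw [not_nonempty_iff_eq_empty, filter_eq_empty_iff] at hc
    exact hne (Equiv.ext fun j => not_not.1 (hc (mem_univ j)))
  obtain ⟨a, ha, hmin⟩ := exists_min_image _ id hex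
  have hwa : w a ≠ u a := (mem_filter.1 ha).2
  have hbef : ∀ j, j < a → w j = u j := by
    intro j hj
    by_contra hc
    have := hmin j (mem_filter.2 ⟨mem_univ _, hc⟩)
    exact absurd hj (not_lt_of_ge this)
  have hrk : ∀ i, rk w i a.val = rk u i a.val := by
    intro i
    unfold rk
    congr 1
    refine filter_congr fun j _ => ?_
    constructor
    · rintro ⟨h1, h2⟩
      exact ⟨h1, by rw [← hbef j h1]; exact h2⟩
    · rintro ⟨h1, h2⟩
      exact ⟨h1, by rw [hbef j h1]; exact h2⟩
  have hlt : (w a).val < (u a).val := by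
    have h1 := h (w a).val (a.val + 1)
    rw [rk_succ w _ _ a.isLt, rk_succ u _ _ a.isLt, hrk] at h1
    have h2 : (w a).val ≠ (u a).val := fun h3 => hwa (Fin.ext h3)
    have h3 : (⟨a.val, a.isLt⟩ : Fin n) = a := rfl
    rw [h3] at h1
    rw [if_pos le_rfl] at h1
    split_ifs at h1 with h4
    · omega
    · omega
  have hex2 : (univ.filter fun c : Fin n => a < c ∧ w a ≤ u c ∧ u c < u a).Nonempty := by
    refine ⟨u.symm (w a), mem_filter.2 ⟨mem_univ _, ?_, ?_, ?_⟩⟩
    · rcases lt_trichotomy (u.symm (w a)) a with h1 | h1 | h1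
      · have h2 := hbef _ h1
        rw [Equiv.apply_symm_apply] at h2
        have h3 := w.injective h2
        exact absurd h1 (by rw [h3]; exact lt_irrefl _)
      · exfalso
        apply hwa
        have h2 := congrArg u h1
        rw [Equiv.apply_symm_apply] at h2
        exact h2
      · exact h1
    · rw [Equiv.apply_symm_apply]
    · rw [Equiv.apply_symm_apply]
      exact hlt
  obtain ⟨b, hb, hbmin⟩ := exists_min_image _ id hex2
  obtain ⟨-, hab, hwb, hub⟩ := mem_filter.1 hb
  have hbet : ∀ c, a < c → c < b → w a ≤ u c → ¬ u c < u a := by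
    intro c h1 h2 h3 h4
    have := hbmin c (mem_filter.2 ⟨mem_univ _, h1, h3, h4⟩)
    exact absurd h2 (not_lt_of_ge this)
  refine ⟨a, b, ⟨hab, hub, fun c h1 h2 h3 => hbet c h1 h2 (hwb.trans h3.1.le) h3.2⟩, ?_⟩
  intro i k
  by_cases hk : k ≤ a.val ∨ b.val < k
  · rw [rk_swap_out u hab i k hk]
    exact h i k
  push Not at hk
  have h1 := rk_swap_mid u hab i k hk.1 hk.2
  have hub' : (u b).val < (u a).val := hub
  have hwb' : (w a).val ≤ (u b).val := hwb
  have hik := h i k
  by_cases h2 : i ≤ (u b).val
  · rw [if_pos h2, if_pos (by omega)] at h1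
    omega
  by_cases h3 : i ≤ (u a).val
  · rw [if_pos h3, if_neg h2] at h1
    have e1 := b4_split w a i k hk.1
    have e2 := b4_split u a i k hk.1
    have e3 := b4_split w a (w a).val k hk.1
    have e4 := b4_split u a (w a).val k hk.1
    have h4 := h (w a).val k
    rw [if_neg (by omega), hrk] at e1
    rw [if_pos h3] at e2
    rw [if_pos le_rfl, hrk] at e3
    rw [if_pos hlt.le] at e4
    have c1 : (univ.filter fun c : Fin n => a < c ∧ c.val < k ∧ i ≤ (w c).val).card ≤
        (univ.filter fun c : Fin n => a < c ∧ c.val < k ∧ (w a).val ≤ (w c).val).card := by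
      refine card_le_card fun c hc => ?_
      rw [mem_filter] at hc ⊢
      exact ⟨hc.1, hc.2.1, hc.2.2.1, by omega⟩
    have c2 : (univ.filter fun c : Fin n => a < c ∧ c.val < k ∧ (w a).val ≤ (u c).val).card ≤
        (univ.filter fun c : Fin n => a < c ∧ c.val < k ∧ i ≤ (u c).val).card := by
      refine card_le_card fun c hc => ?_
      rw [mem_filter] at hc ⊢
      refine ⟨hc.1, hc.2.1, hc.2.2.1, ?_⟩
      have hcb : c < b := Fin.lt_def.2 (lt_of_lt_of_le hc.2.2.1 hk.2)
      have h5 := hbet c hc.2.1 hcb hc.2.2.2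
      have h6 : (u a).val ≤ (u c).val := not_lt.1 h5
      omega
    omega
  · rw [if_neg h3, if_neg h2] at h1
    omega

end CMT
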