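import Pool.Agent.H43.CM.B.B1
import Pool.Agent.H43.CM.B.B2
import Pool.Agent.H43.CM.B.B3b
import Pool.Agent.H43.CM.B.B4

/-!
# CM, job B5: consequences: length is strictly monotone, chains, descents (B3, B4, B5, B6)

`len_lt`: strong induction on `len u`: `exists_hasse` gives `u' = u * swap a b` with `ble w u'`,
`len u = len u' + 1` (`len_hasse`); if `w = u'` done, else `len w < len u'`.
The rest is immediate:  `hasse_of_cov`: `w ≠ u` (lengths),
`exists_hasse` gives `u'` with `ble w u'`, `len u' = len w` so `w = u'`.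
`cov_asc` (B4): `lift_b` gives `ble v' (v * s)`, and `len (v * s) + 1 = len v = len v' + 1`.
-/

open Finset

noncomputable section

namespace CMT

variable {n : ℕ}

theorem len_lt {w u : Equiv.Perm (Fin n)} (h : ble w u) (hne : w ≠ u) : len w < len u := by
  induction hm : len u using Nat.strong_induction_on generalizing u with
  | _ m ih =>
    obtain ⟨a, b, h1, h2⟩ := exists_hasse h hne
    have h3 := len_hasse h1
    by_cases hw : w = u * Equiv.swap a b
    · rw [hw]
      omega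
    · have h4 := ih (len (u * Equiv.swap a b)) (by omega) h2 hw rfl
      omega

/-- (B3) -/
theorem len_le_of_ble {v w : Equiv.Perm (Fin n)} (h : ble w v) : len w ≤ len v := by
  by_cases hne : w = v
  · rw [hne]
  · exact (len_lt h hne).le

theorem eq_of_ble_of_len {v w : Equiv.Perm (Fin n)} (h : ble w v) (h' : len w = len v) :
    w = v := by
  by_contra hne
  exact absurd h' (len_lt h hne).ne

theorem cov_ne {w u : Equiv.Perm (Fin n)} (h : cov w u) : w ≠ u := by
  rintro rfl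
  have := h.2
  omega

/-- (B5) -/
theorem exists_cov {v w : Equiv.Perm (Fin n)} (h : ble w v) (hne : w ≠ v) :
    ∃ v', ble w v' ∧ cov v' v := by
  obtain ⟨a, b, h1, h2⟩ := exists_hasse h hne
  exact ⟨_, h2, cov_of_hasse h1⟩

/-- (B6) -/
theorem hasse_of_cov {w u : Equiv.Perm (Fin n)} (h : cov w u) :
    ∃ a b : Fin n, Hasse u a b ∧ w = u * Equiv.swap a b := by
  obtain ⟨a, b, h1, h2⟩ := exists_hasse h.1 (cov_ne h)
  have h3 := len_hasse h1
  have h4 := h.2
  exact ⟨a, b, h1, eq_of_ble_of_len h2 (by omega)⟩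

theorem cov_iff {v w : Equiv.Perm (Fin n)} : cov w v ↔
    ∃ a b : Fin n, a < b ∧ w = v * Equiv.swap a b ∧ v b < v a ∧
      ∀ c, a < c → c < b → ¬ (v b < v c ∧ v c < v a) := by
  constructor
  · intro h
    obtain ⟨a, b, h1, h2⟩ := hasse_of_cov h
    exact ⟨a, b, h1.1, h2, h1.2.1, h1.2.2⟩
  · rintro ⟨a, b, h1, rfl, h2, h3⟩
    exact cov_of_hasse ⟨h1, h2, h3⟩

/-- (B4) -/
theorem cov_asc {v w : Equiv.Perm (Fin n)} (q : ℕ) (hq : q + 1 < n) (h : cov w v)
    (hv : dsc v q hq) (hw : asc w q hq) : w = v * sr q hq := by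
  have h1 := len_mul_dsc v q hq hv
  have h2 := h.2
  exact eq_of_ble_of_len (lift_b q hq h.1 hv hw) (by omega)

/-- covers other than `v s` of an element with a descent have a descent -/
theorem cov_dsc {v' v : Equiv.Perm (Fin n)} {q : ℕ} {hq : q + 1 < n} (h : cov v' v)
    (hv : dsc v q hq) (hne : v' ≠ v * sr q hq) : dsc v' q hq := by
  rcases asc_or_dsc v' q hq with h1 | h1
  · exact absurd (cov_asc q hq h hv h1) hne
  · exact h1

theorem cov_mul_sr_of_dsc {v : Equiv.Perm (Fin n)} {q : ℕ} {hq : q + 1 < n} (hv : dsc v q hq) :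
    cov (v * sr q hq) v :=
  ⟨ble_mul_sr_of_dsc hv, (len_mul_dsc v q hq hv).symm⟩

theorem cov_mul_sr {v : Equiv.Perm (Fin n)} (q : ℕ) (hq : q + 1 < n) (hv : asc v q hq) :
    cov v (v * sr q hq) :=
  ⟨ble_mul_sr_of_asc hv, len_mul_asc v q hq hv⟩

/-- a cover with descents: `(v' s, v s)` is again a cover -/
theorem cov_mul_sr_dd {v' v : Equiv.Perm (Fin n)} {q : ℕ} {hq : q + 1 < n} (h : cov v' v)
    (hv : dsc v q hq) (hv' : dsc v' q hq) : cov (v' * sr q hq) (v * sr q hq) := by
  refine ⟨lift_c q hq h.1 hv hv', ?_⟩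
  have h1 := len_mul_dsc v q hq hv
  have h2 := len_mul_dsc v' q hq hv'
  have h3 := h.2
  omega

theorem cov_mul_sr_aa {v' v : Equiv.Perm (Fin n)} {q : ℕ} {hq : q + 1 < n} (h : cov v' v)
    (hv : asc v q hq) (hv' : asc v' q hq) : cov (v' * sr q hq) (v * sr q hq) := by
  refine ⟨lift_d q hq h.1 hv hv', ?_⟩
  have h1 := len_mul_asc v q hq hv
  have h2 := len_mul_asc v' q hq hv'
  have h3 := h.2
  omega

theorem rk_swap_of_mem {v : Equiv.Perm (Fin n)} {a b : Fin n} (hab : a < b) (hv : v b < v a)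
    (k : ℕ) (h1 : a.val < k) (h2 : k ≤ b.val) :
    rk (v * Equiv.swap a b) (v a).val k < rk v (v a).val k :=
  rk_swap_lt hab hv k h1 h2

theorem rk_swap_of_not_mem {v : Equiv.Perm (Fin n)} {a b : Fin n} (hab : a < b)
    (k : ℕ) (h : ¬ (a.val < k ∧ k ≤ b.val)) (i : ℕ) :
    rk (v * Equiv.swap a b) i k = rk v i k :=
  rk_swap_out v hab i k (by by_contra hcon; push Not at hcon; exact h ⟨hcon.1, hcon.2⟩)

end CMT
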