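import Pool.Agent.H43.CM.B.B5

/-!
# CM, job B6: thinness: intervals of length 2 have exactly two middle elements (B7)

Proof. Call `y` a middle element of `[w, v]` (`len v = len w + 2`) if `cov w y` and `cov y v`.
Claim: if `ble w v`, `len v = len w + 2`, then there are exactly two middle elements. Induction on `len v`.
As `len v ≥ 2 > 0`, `v` has a descent `q` (if `v` has no descent then `v` is monotone, `v = 1`, `len v = 0`; see
`exists_dsc` below). `s = sr q hq`. A middle element without descent at `q` is `v s` (B4, `cov_asc`), and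
`v s` is a middle element iff `ble w (v s)`.
Case `asc w`: then `ble w (v s)` (`lift_b`), so `v s` is a middle element; a middle element `z` with a descent at `q`:
`ble w z`, `dsc z`, `asc w`: by B4 applied to `cov w z`: `w = z s`, so `z = w s`. And `w s` is a middle element: `cov w (w s)`,
`ble (w s) v` by `lift_a`, and lengths. `w s ≠ v s`. So the middle elements are exactly `v s`, `w s`.
Case `dsc w`: `[w s, v s]` has length 2 and `len (v s) < len v`, `ble (w s) (v s)` by `lift_c`; let `y1, y2` be its two
middle elements. `z ↦ z s` is a bijection from the middle elements of `[w, v]` with a descent at `q` to the middle elements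
of `[w s, v s]` with an ascent at `q` (`cov_mul_sr_dd`, resp. `cov_mul_sr_aa` with `asc (w s)`, `asc (v s)`). A middle
element `y` of `[w s, v s]` with a descent at `q` is `w` (B4 for `cov (w s) y`: `w s = y s`), and `w` is a middle element
of `[w s, v s]` iff `ble w (v s)` (`cov (w s) w` holds). So: if `ble w (v s)`: `v s` is a middle element of `[w, v]`, `w` is one of
`y1, y2`, the other one, `y`, has an ascent, and the middle elements of `[w, v]` are `v s` and `y s`. If not: both `y1, y2` have
an ascent and the middle elements of `[w, v]` are `y1 s`, `y2 s`.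
(B7) `exists_unique_other`: for `cov w v'`, `cov v' v`: the middle elements of `[w, v]` are `v'` and exactly one other.
-/

open Finset

noncomputable section

namespace CMT

variable {n : ℕ}

/-- a permutation different from the identity has a descent -/
theorem exists_dsc {v : Equiv.Perm (Fin n)} (hv : v ≠ 1) : ∃ q hq, dsc v q hq := by
  by_contra hno
  push Not at hno
  apply hv
  rcases n with _ | m
  · exact Subsingleton.elim _ _
  · have hs : StrictMono v := by
      rw [Fin.strictMono_iff_lt_succ]
      intro i
      have h1 : asc v i.val (by omega) := not_dsc_iff.1 (hno i.val (by omega))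
      exact h1
    have h2 : hs.orderIsoOfSurjective v v.surjective = OrderIso.refl (Fin (m + 1)) :=
      Subsingleton.elim _ _
    ext j
    have h3 := congrArg (fun f : Fin (m + 1) ≃o Fin (m + 1) => f j) h2
    have h4 : v j = j := h3
    rw [h4]
    rfl

theorem len_one_eq : len (1 : Equiv.Perm (Fin n)) = 0 := by
  unfold len
  rw [Finset.card_eq_zero, Finset.filter_eq_empty_iff]
  rintro ⟨a, b⟩ _ ⟨h1, h2⟩
  simp only [Equiv.Perm.one_apply] at h2
  exact absurd h1 (not_lt_of_gt h2)

theorem b6_down {w v y : Equiv.Perm (Fin n)} {q : ℕ} {hq : q + 1 < n}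
    (h : cov w y ∧ cov y v) (hw : dsc w q hq) (hy : dsc y q hq) (hv : dsc v q hq) :
    cov (w * sr q hq) (y * sr q hq) ∧ cov (y * sr q hq) (v * sr q hq) :=
  ⟨cov_mul_sr_dd h.1 hy hw, cov_mul_sr_dd h.2 hv hy⟩

theorem b6_up {w v z : Equiv.Perm (Fin n)} {q : ℕ} {hq : q + 1 < n}
    (h : cov (w * sr q hq) z ∧ cov z (v * sr q hq)) (hw : dsc w q hq) (hz : asc z q hq)
    (hv : dsc v q hq) : cov w (z * sr q hq) ∧ cov (z * sr q hq) v := by
  have hw' : asc (w * sr q hq) q hq := (asc_mul_iff w q hq).2 hw
  have hv' : asc (v * sr q hq) q hq := (asc_mul_iff v q hq).2 hv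
  have h1 := cov_mul_sr_aa h.1 hz hw'
  have h2 := cov_mul_sr_aa h.2 hv' hz
  rw [mul_sr_sr] at h1 h2
  exact ⟨h1, h2⟩

theorem b6_eq {w y : Equiv.Perm (Fin n)} {q : ℕ} {hq : q + 1 < n}
    (h : w * sr q hq = y) : w = y * sr q hq := by
  rw [← h, mul_sr_sr]

theorem b6_inj {w y : Equiv.Perm (Fin n)} {q : ℕ} {hq : q + 1 < n}
    (h : w * sr q hq = y * sr q hq) : w = y := mul_right_cancel h

theorem thin2_aux (m : ℕ) : ∀ {w v : Equiv.Perm (Fin n)}, len v ≤ m → ble w v →
    len v = len w + 2 →
    ∃ y1 y2 : Equiv.Perm (Fin n), y1 ≠ y2 ∧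
      ∀ y, (cov w y ∧ cov y v) ↔ (y = y1 ∨ y = y2) := by
  induction m with
  | zero =>
    intro w v h1 _ h3
    omega
  | succ m ih =>
    intro w v hm h hl
    have hv1 : v ≠ 1 := by
      rintro rfl
      rw [len_one_eq] at hl
      omega
    obtain ⟨q, hq, hv⟩ := exists_dsc hv1
    have hlv := len_mul_dsc v q hq hv
    have hcv : cov (v * sr q hq) v := cov_mul_sr_of_dsc hv
    rcases asc_or_dsc w q hq with hw | hw
    · -- `w` has an ascent
      have hlw := len_mul_asc w q hq hw
      refine ⟨v * sr q hq, w * sr q hq, ?_, ?_⟩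
      · intro he
        have := b6_inj he
        rw [this] at hl
        omega
      · intro y
        constructor
        · rintro ⟨h1, h2⟩
          rcases asc_or_dsc y q hq with hy | hy
          · exact Or.inl (cov_asc q hq h2 hv hy)
          · right
            have h3 := cov_asc q hq h1 hy hw
            rw [h3, mul_sr_sr]
        · rintro (rfl | rfl)
          · exact ⟨⟨lift_b q hq h hv hw, by omega⟩, hcv⟩
          · exact ⟨cov_mul_sr q hq hw, ⟨lift_a q hq h hv, by omega⟩⟩
    · -- `w` has a descent
      have hlw := len_mul_dsc w q hq hw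
      have hwa : asc (w * sr q hq) q hq := (asc_mul_iff w q hq).2 hw
      have hcw : cov (w * sr q hq) w := cov_mul_sr_of_dsc hw
      obtain ⟨y1, y2, hne, H⟩ := ih (w := w * sr q hq) (v := v * sr q hq) (by omega)
        (lift_c q hq h hv hw) (by omega)
      -- middle elements of the lower interval with a descent
      have F3 : ∀ z, (cov (w * sr q hq) z ∧ cov z (v * sr q hq)) → dsc z q hq → z = w := by
        intro z hz hd
        exact (b6_inj (cov_asc q hq hz.1 hd hwa)).symm
      have F4 : ∀ y, (cov w y ∧ cov y v) → asc y q hq → y = v * sr q hq :=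
        fun y hy ha => cov_asc q hq hy.2 hv ha
      have F6 : ∀ z, (cov (w * sr q hq) z ∧ cov z (v * sr q hq)) → z ≠ w → asc z q hq := by
        intro z hz hzw
        rcases asc_or_dsc z q hq with ha | hd
        · exact ha
        · exact absurd (F3 z hz hd) hzw
      by_cases hb : ble w (v * sr q hq)
      · have hmw : cov (w * sr q hq) w ∧ cov w (v * sr q hq) := ⟨hcw, ⟨hb, by omega⟩⟩
        -- `w` is one of the two, `y` the other
        obtain ⟨y, hyw, H'⟩ : ∃ y, y ≠ w ∧
            ∀ z, (cov (w * sr q hq) z ∧ cov z (v * sr q hq)) ↔ (z = w ∨ z = y) := by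
          rcases (H w).1 hmw with h1 | h1
          · refine ⟨y2, fun h2 => hne (by rw [← h1, h2]), fun z => ?_⟩
            rw [H z, ← h1]
          · refine ⟨y1, fun h2 => hne (by rw [← h1, h2]), fun z => ?_⟩
            rw [H z, ← h1, or_comm]
        have hy := (H' y).2 (Or.inr rfl)
        have hya := F6 y hy hyw
        refine ⟨v * sr q hq, y * sr q hq, ?_, ?_⟩
        · intro he
          have h1 := b6_inj he
          have h2 := hy.2.2
          rw [← h1] at h2
          omega
        · intro x
          constructor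
          · intro hx
            rcases asc_or_dsc x q hq with hxa | hxd
            · exact Or.inl (F4 x hx hxa)
            · right
              rcases (H' _).1 (b6_down hx hw hxd hv) with h1 | h1
              · exfalso
                have h2 : asc (x * sr q hq) q hq := (asc_mul_iff x q hq).2 hxd
                rw [h1] at h2
                exact (not_dsc_iff.2 h2) hw
              · exact b6_eq h1
          · rintro (rfl | rfl)
            · exact ⟨⟨hb, by omega⟩, hcv⟩
            · exact b6_up hy hw hya hv
      · have hyw : ∀ z, (cov (w * sr q hq) z ∧ cov z (v * sr q hq)) → z ≠ w := by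
          rintro z hz rfl
          exact hb hz.2.1
        have hm1 := (H y1).2 (Or.inl rfl)
        have hm2 := (H y2).2 (Or.inr rfl)
        have ha1 := F6 y1 hm1 (hyw y1 hm1)
        have ha2 := F6 y2 hm2 (hyw y2 hm2)
        refine ⟨y1 * sr q hq, y2 * sr q hq, fun he => hne (b6_inj he), ?_⟩
        intro x
        constructor
        · intro hx
          rcases asc_or_dsc x q hq with hxa | hxd
          · exfalso
            have h1 := F4 x hx hxa
            rw [h1] at hx
            exact hb hx.1.1
          · rcases (H _).1 (b6_down hx hw hxd hv) with h1 | h1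
            · exact Or.inl (b6_eq h1)
            · exact Or.inr (b6_eq h1)
        · rintro (rfl | rfl)
          · exact b6_up hm1 hw ha1 hv
          · exact b6_up hm2 hw ha2 hv

theorem thin2 {w v : Equiv.Perm (Fin n)} (h : ble w v) (hl : len v = len w + 2) :
    ∃ y1 y2 : Equiv.Perm (Fin n), y1 ≠ y2 ∧
      ∀ y, (cov w y ∧ cov y v) ↔ (y = y1 ∨ y = y2) :=
  thin2_aux (len v) le_rfl h hl

/-- (B7) -/
theorem exists_unique_other {w v' v : Equiv.Perm (Fin n)} (h1 : cov w v') (h2 : cov v' v) :
    ∃ v'', v'' ≠ v' ∧ cov v'' v ∧ cov w v'' ∧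
      ∀ y, cov y v → ble w y → y = v' ∨ y = v'' := by
  obtain ⟨y1, y2, hne, hy⟩ := thin2 (ble_trans h1.1 h2.1) (by rw [h2.2, h1.2])
  have key : ∀ y, cov y v → ble w y → cov w y := by
    intro y hy1 hy2
    exact ⟨hy2, by have := hy1.2; have := h1.2; have := h2.2; omega⟩
  rcases (hy v').mp ⟨h1, h2⟩ with rfl | rfl
  · have h3 := (hy y2).mpr (Or.inr rfl)
    exact ⟨y2, hne.symm, h3.2, h3.1, fun y a b => (hy y).mp ⟨key y a b, a⟩⟩
  · have h3 := (hy y1).mpr (Or.inl rfl)
    exact ⟨y1, hne, h3.2, h3.1, fun y a b => ((hy y).mp ⟨key y a b, a⟩).symm⟩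

/-- (B7), the form needed -/
theorem thin {w v' : Equiv.Perm (Fin n)} (q : ℕ) (hq : q + 1 < n) (h : cov w v')
    (hv : asc v' q hq) :
    ∃ v'', v'' ≠ v' ∧ cov v'' (v' * sr q hq) ∧ ble w v'' ∧
      ∀ v₁, v₁ ≠ v' → cov v₁ (v' * sr q hq) → ble w v₁ → v₁ = v'' := by
  obtain ⟨v'', h1, h2, h3, h4⟩ := exists_unique_other h (cov_mul_sr q hq hv)
  exact ⟨v'', h1, h2, h3.1, fun y hy1 hy2 hy3 => (h4 y hy2 hy3).resolve_left hy1⟩

end CMT
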