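import Pool.Agent.H43.CM.B.B5

/-!
# CM, job B7: the combinatorics of Theorem B  (B8)

Setting: `h b = h a + 1` for every Hasse edge `(a, b)` of `u`; `q` is an ascent of `u` and `h q ≠ h (q+1)`; `v = u * s`.

(i) Let `cov u' u`. By `hasse_of_cov` `u' = u * swap a b` with `Hasse u a b`. Claim: `u'` has an ascent at `q`.
Suppose `u' (q+1) < u' q`. If `{a, b}` is disjoint from `{q, q+1}` then `u'` and `u` agree at `q, q+1`, contradiction. Cases:
* `a = q`, `b ≠ q+1` (so `b > q+1`): `u' q = u b < u a = u q < u (q+1) = u' (q+1)`, contradiction.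
* `a = q+1` (so `b > q+1`): `u' (q+1) = u b`, `u' q = u q`; `u b < u q < u (q+1) = u a`. Then `(q, b)` is a Hasse edge: for `q < c < b`:
  `c = q+1`: `u c = u (q+1) > u q`; `c > q+1 = a`: not `u b < u c < u a`, in particular not `u b < u c < u q`. So `h b = h q + 1` and
  `h b = h (q+1) + 1`, so `h q = h (q+1)`, contradiction.
* `b = q` (so `a < q`): `u' q = u a`, `u' (q+1) = u (q+1)`: `u (q+1) < u a`, and `u q < u (q+1)`. Then `(a, q+1)` is a Hasse edge: for `a < c < q+1`:
  `c = q`: `u q < u (q+1)`; `c < q = b`: not `u b < u c < u a` and `u b = u q < u (q+1)`, so not `u (q+1) < u c < u a`. So `h (q+1) = h a + 1 = h q`.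
* `b = q+1`, `a ≠ q` (so `a < q`): `u' q = u q < u (q+1) = u b < u a = u' (q+1)`, contradiction.
* `(a, b) = (q, q+1)`: `u (q+1) < u q`, contradiction to the ascent.
Then `cov (u' * s) (u * s)` by `cov_mul_sr_aa`, and `u' * s ≠ u` since `u' * s` has a descent at `q`.
(ii) `cov v' v`, `v' ≠ u = v * s`: `cov_dsc`, `cov_mul_sr_dd` and `v * s = u`.
-/

open Finset

noncomputable section

namespace CMT

variable {n : ℕ}

/-- the rank function of a Gorenstein permutation -/
def RankFun (u : Equiv.Perm (Fin n)) (h : Fin n → ℤ) : Prop :=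
  ∀ a b : Fin n, a < b → u b < u a → (∀ c, a < c → c < b → ¬ (u b < u c ∧ u c < u a)) →
    h b = h a + 1

theorem b7_key {u : Equiv.Perm (Fin n)} {h : Fin n → ℤ} (hu : RankFun u h) (q : ℕ)
    (hq : q + 1 < n) (ha : asc u q hq) (hh : h (q0 q hq) ≠ h (q1 q hq)) {a b : Fin n}
    (hH : Hasse u a b) (hd : dsc (u * Equiv.swap a b) q hq) : False := by
  obtain ⟨hab, hba, hc⟩ := hH
  have hlt : ∀ c : Fin n, c ≠ q0 q hq → c ≠ q1 q hq → c < q0 q hq ∨ q1 q hq < c := by
    intro c h0 h1
    have h0' : c.val ≠ q := fun h => h0 (Fin.ext h)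
    have h1' : c.val ≠ q + 1 := fun h => h1 (Fin.ext h)
    simp only [Fin.lt_def, q0, q1]
    omega
  have h01 := q0_lt_q1 q hq
  have hne := q0_ne_q1 q hq
  unfold asc at ha
  unfold dsc at hd
  simp only [Equiv.Perm.mul_apply] at hd
  generalize q0 q hq = x at *
  generalize q1 q hq = y at *
  by_cases hax : a = x
  · subst hax
    by_cases hby : b = y
    · subst hby
      exact absurd ha (not_lt.mpr (le_of_lt hba))
    · rw [Equiv.swap_apply_left, Equiv.swap_apply_of_ne_of_ne hne.symm (Ne.symm hby)] at hd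
      exact absurd (hd.trans hba) (not_lt.mpr (le_of_lt ha))
  · by_cases hay : a = y
    · subst hay
      have hxb : x ≠ b := (h01.trans hab).ne
      rw [Equiv.swap_apply_left, Equiv.swap_apply_of_ne_of_ne hne hxb] at hd
      have e1 := hu a b hab hba hc
      have e2 := hu x b (h01.trans hab) hd (by
        intro c hc1 hc2 hc3
        by_cases hca : c = a
        · subst hca
          exact absurd hc3.2 (not_lt.mpr (le_of_lt ha))
        · rcases hlt c hc1.ne' hca with h | h
          · exact absurd h (not_lt.mpr (le_of_lt hc1))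
          · exact hc c h hc2 ⟨hc3.1, hc3.2.trans ha⟩)
      exact hh (by linarith)
    · by_cases hbx : b = x
      · subst hbx
        rw [Equiv.swap_apply_right, Equiv.swap_apply_of_ne_of_ne (Ne.symm hay) hne.symm] at hd
        have e1 := hu a b hab hba hc
        have e2 := hu a y (hab.trans h01) hd (by
          intro c hc1 hc2 hc3
          by_cases hcb : c = b
          · subst hcb
            exact absurd hc3.1 (not_lt.mpr (le_of_lt ha))
          · rcases hlt c hcb hc2.ne with h | h
            · exact hc c hc1 h ⟨ha.trans hc3.1, hc3.2⟩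
            · exact absurd h (not_lt.mpr (le_of_lt hc2)))
        exact hh (by linarith)
      · by_cases hby : b = y
        · subst hby
          rw [Equiv.swap_apply_right, Equiv.swap_apply_of_ne_of_ne (Ne.symm hax) hne] at hd
          exact absurd (hba.trans hd) (not_lt.mpr (le_of_lt ha))
        · rw [Equiv.swap_apply_of_ne_of_ne (Ne.symm hax) (Ne.symm hbx),
            Equiv.swap_apply_of_ne_of_ne (Ne.symm hay) (Ne.symm hby)] at hd
          exact absurd hd (not_lt.mpr (le_of_lt ha))

/-- (B8i) -/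
theorem b8_i {u u' : Equiv.Perm (Fin n)} {h : Fin n → ℤ} (hu : RankFun u h) (q : ℕ)
    (hq : q + 1 < n) (ha : asc u q hq) (hh : h (q0 q hq) ≠ h (q1 q hq)) (hc : cov u' u) :
    asc u' q hq ∧ cov (u' * sr q hq) (u * sr q hq) ∧ u' * sr q hq ≠ u := by
  have hasc : asc u' q hq := by
    obtain ⟨a, b, hH, rfl⟩ := hasse_of_cov hc
    rcases asc_or_dsc (u * Equiv.swap a b) q hq with h1 | h1
    · exact h1
    · exact (b7_key hu q hq ha hh hH h1).elim
  refine ⟨hasc, cov_mul_sr_aa hc ha hasc, ?_⟩
  intro h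
  have hd : dsc (u' * sr q hq) q hq := (dsc_mul_iff u' q hq).mpr hasc
  rw [h] at hd
  exact absurd ha (not_lt.mpr (le_of_lt hd))

/-- (B8ii) -/
theorem b8_ii {u v' : Equiv.Perm (Fin n)} (q : ℕ)
    (hq : q + 1 < n) (ha : asc u q hq) (hc : cov v' (u * sr q hq)) (hne : v' ≠ u) :
    dsc v' q hq ∧ cov (v' * sr q hq) u := by
  have hd : dsc (u * sr q hq) q hq := (dsc_mul_iff u q hq).mpr ha
  have h1 : dsc v' q hq := cov_dsc hc hd (by rw [mul_sr_sr]; exact hne)
  refine ⟨h1, ?_⟩
  have h2 := cov_mul_sr_dd hc hd h1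
  rwa [mul_sr_sr] at h2

end CMT
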