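import Pool.Agent.H43.CM.Defs

/-!
# CM, Part B, file 0: rank functions, Bruhat order is a partial order, simple reflections.
(positions and values 0-based; `rk w i k = #{j < k : i ≤ w j}`)
-/

open Finset

noncomputable section

namespace CMT

variable {n : ℕ}

/-- a Hasse edge of the inversion poset of `u` -/
def Hasse (u : Equiv.Perm (Fin n)) (a b : Fin n) : Prop :=
  a < b ∧ u b < u a ∧ ∀ c, a < c → c < b → ¬ (u b < u c ∧ u c < u a)

theorem rk_zero (w : Equiv.Perm (Fin n)) (i : ℕ) : rk w i 0 = 0 := by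
  simp [rk]

theorem rk_succ (w : Equiv.Perm (Fin n)) (i k : ℕ) (hk : k < n) :
    rk w i (k + 1) = rk w i k + if i ≤ (w ⟨k, hk⟩).val then 1 else 0 := by
  classical
  unfold rk
  have h : (univ.filter fun j : Fin n => j.val < k + 1 ∧ i ≤ (w j).val)
      = (univ.filter fun j : Fin n => j.val < k ∧ i ≤ (w j).val) ∪
        (if i ≤ (w ⟨k, hk⟩).val then {⟨k, hk⟩} else ∅) := by
    ext j
    simp only [mem_filter, mem_univ, true_and, mem_union]
    constructor
    · rintro ⟨h1, h2⟩
      rcases Nat.lt_succ_iff_lt_or_eq.mp h1 with h | h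
      · exact Or.inl ⟨h, h2⟩
      · right
        have : j = ⟨k, hk⟩ := Fin.ext h
        subst this
        rw [if_pos h2]
        simp
    · rintro (⟨h1, h2⟩ | h)
      · exact ⟨by omega, h2⟩
      · split_ifs at h with h3
        · rw [mem_singleton] at h
          subst h
          exact ⟨by simp, h3⟩
        · simp at h
  rw [h, card_union_of_disjoint]
  · split_ifs <;> simp
  · rw [disjoint_left]
    intro j hj hj'
    simp only [mem_filter, mem_univ, true_and] at hj
    split_ifs at hj' with h3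
    · rw [mem_singleton] at hj'
      subst hj'
      simp at hj
    · simp at hj'

theorem rk_of_ge (w : Equiv.Perm (Fin n)) (i k : ℕ) (hk : n ≤ k) : rk w i k = rk w i n := by
  unfold rk
  congr 1
  ext j
  simp only [mem_filter, mem_univ, true_and]
  have := j.isLt
  constructor
  · rintro ⟨_, h⟩; exact ⟨by omega, h⟩
  · rintro ⟨_, h⟩; exact ⟨by omega, h⟩

/-- two rank functions agree for `k = n` -/
theorem rk_top (w v : Equiv.Perm (Fin n)) (i : ℕ) : rk w i n = rk v i n := by
  classical
  have h : ∀ u : Equiv.Perm (Fin n), rk u i n = (univ.filter fun j : Fin n => i ≤ j.val).card := by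
    intro u
    unfold rk
    apply card_bij (fun j _ => u j)
    · intro j hj
      simp only [mem_filter, mem_univ, true_and] at hj ⊢
      exact hj.2
    · intro a _ b _ h
      exact u.injective h
    · intro j hj
      simp only [mem_filter, mem_univ, true_and] at hj
      exact ⟨u.symm j, by simp [hj], by simp⟩
  rw [h, h]

theorem ble_refl (w : Equiv.Perm (Fin n)) : ble w w := fun _ _ => le_rfl

theorem ble_trans {u v w : Equiv.Perm (Fin n)} (h1 : ble u v) (h2 : ble v w) : ble u w :=
  fun i k => (h1 i k).trans (h2 i k)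

theorem eq_of_rk_eq {v w : Equiv.Perm (Fin n)} (h : ∀ i k, rk w i k = rk v i k) : w = v := by
  ext j
  obtain ⟨k, hk⟩ := j
  have key : ∀ i, (if i ≤ (w ⟨k, hk⟩).val then 1 else 0) = (if i ≤ (v ⟨k, hk⟩).val then 1 else 0) := by
    intro i
    have h1 := rk_succ w i k hk
    have h2 := rk_succ v i k hk
    have h3 := h i k
    have h4 := h i (k + 1)
    omega
  have h1 := key (w ⟨k, hk⟩).val
  have h2 := key (v ⟨k, hk⟩).val
  rw [if_pos le_rfl] at h1
  rw [if_pos (le_refl (v ⟨k, hk⟩).val)] at h2
  split_ifs at h1 with h3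
  split_ifs at h2 with h4
  omega

theorem ble_antisymm {v w : Equiv.Perm (Fin n)} (h : ble v w) (h' : ble w v) : v = w :=
  eq_of_rk_eq (fun i k => le_antisymm (h i k) (h' i k))

/-! ### simple reflections -/

theorem q0_lt_q1 (q : ℕ) (hq : q + 1 < n) : q0 q hq < q1 q hq := by
  simp [q0, q1, Fin.lt_def]

theorem q0_ne_q1 (q : ℕ) (hq : q + 1 < n) : q0 q hq ≠ q1 q hq := (q0_lt_q1 q hq).ne

theorem sr_q0 (q : ℕ) (hq : q + 1 < n) : sr q hq (q0 q hq) = q1 q hq := Equiv.swap_apply_left _ _
theorem sr_q1 (q : ℕ) (hq : q + 1 < n) : sr q hq (q1 q hq) = q0 q hq := Equiv.swap_apply_right _ _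
theorem sr_ne (q : ℕ) (hq : q + 1 < n) {j : Fin n} (h0 : j ≠ q0 q hq) (h1 : j ≠ q1 q hq) :
    sr q hq j = j := Equiv.swap_apply_of_ne_of_ne h0 h1

theorem sr_sr (q : ℕ) (hq : q + 1 < n) : sr q hq * sr q hq = 1 := Equiv.swap_mul_self _ _

theorem sr_sr_apply (q : ℕ) (hq : q + 1 < n) (j : Fin n) : sr q hq (sr q hq j) = j := by
  simp [sr]

theorem mul_sr_sr (v : Equiv.Perm (Fin n)) (q : ℕ) (hq : q + 1 < n) :
    v * sr q hq * sr q hq = v := by rw [mul_assoc, sr_sr, mul_one]

theorem mul_sr_ne (v : Equiv.Perm (Fin n)) (q : ℕ) (hq : q + 1 < n) : v * sr q hq ≠ v := by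
  intro h
  have := congrArg (fun f : Equiv.Perm (Fin n) => f (q0 q hq)) h
  simp only [Equiv.Perm.mul_apply, sr_q0] at this
  exact q0_ne_q1 q hq (v.injective this).symm

theorem asc_or_dsc (v : Equiv.Perm (Fin n)) (q : ℕ) (hq : q + 1 < n) : asc v q hq ∨ dsc v q hq := by
  unfold asc dsc
  rcases lt_trichotomy (v (q0 q hq)) (v (q1 q hq)) with h | h | h
  · exact Or.inl h
  · exact absurd (v.injective h) (q0_ne_q1 q hq)
  · exact Or.inr h

theorem not_asc_iff {v : Equiv.Perm (Fin n)} {q : ℕ} {hq : q + 1 < n} :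
    ¬ asc v q hq ↔ dsc v q hq := by
  constructor
  · intro h
    exact (asc_or_dsc v q hq).resolve_left h
  · intro h h'
    exact absurd h (not_lt_of_gt h')

theorem not_dsc_iff {v : Equiv.Perm (Fin n)} {q : ℕ} {hq : q + 1 < n} :
    ¬ dsc v q hq ↔ asc v q hq := by
  rw [← not_asc_iff, not_not]

theorem asc_mul_iff (v : Equiv.Perm (Fin n)) (q : ℕ) (hq : q + 1 < n) :
    asc (v * sr q hq) q hq ↔ dsc v q hq := by
  unfold asc dsc
  simp [Equiv.Perm.mul_apply, sr_q0, sr_q1]

theorem dsc_mul_iff (v : Equiv.Perm (Fin n)) (q : ℕ) (hq : q + 1 < n) :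
    dsc (v * sr q hq) q hq ↔ asc v q hq := by
  unfold asc dsc
  simp [Equiv.Perm.mul_apply, sr_q0, sr_q1]

/-- the rank functions of `v` and `v * s_q` differ only for `k = q + 1` -/
theorem rk_mul_sr_ne (v : Equiv.Perm (Fin n)) (q : ℕ) (hq : q + 1 < n) (i k : ℕ) (hk : k ≠ q + 1) :
    rk (v * sr q hq) i k = rk v i k := by
  classical
  unfold rk
  have aux : ∀ j : Fin n, j.val < k → (sr q hq j).val < k := by
    intro j hj
    by_cases h0 : j = q0 q hq
    · subst h0
      rw [sr_q0]
      simp only [q0, q1] at hj ⊢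
      omega
    · by_cases h1 : j = q1 q hq
      · subst h1
        rw [sr_q1]
        simp only [q0, q1] at hj ⊢
        omega
      · rw [sr_ne q hq h0 h1]
        exact hj
  apply card_bij (fun j _ => sr q hq j)
  · intro j hj
    rw [mem_filter] at hj ⊢
    exact ⟨mem_univ _, aux j hj.2.1, hj.2.2⟩
  · intro a _ b _ h
    exact (sr q hq).injective h
  · intro j hj
    rw [mem_filter] at hj
    refine ⟨sr q hq j, ?_, sr_sr_apply q hq j⟩
    rw [mem_filter]
    refine ⟨mem_univ _, aux j hj.2.1, ?_⟩
    rw [Equiv.Perm.mul_apply, sr_sr_apply]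
    exact hj.2.2

/-- rank function at `q + 1` -/
theorem rk_q1 (v : Equiv.Perm (Fin n)) (q : ℕ) (hq : q + 1 < n) (i : ℕ) :
    rk v i (q + 1) = rk v i q + if i ≤ (v (q0 q hq)).val then 1 else 0 :=
  rk_succ v i q (by omega)

/-- rank function at `q + 2` -/
theorem rk_q2 (v : Equiv.Perm (Fin n)) (q : ℕ) (hq : q + 1 < n) (i : ℕ) :
    rk v i (q + 2) = rk v i q + (if i ≤ (v (q0 q hq)).val then 1 else 0)
      + if i ≤ (v (q1 q hq)).val then 1 else 0 := by
  rw [rk_succ v i (q + 1) hq, rk_q1 v q hq i]
  rfl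

theorem rk_mul_sr_q1 (v : Equiv.Perm (Fin n)) (q : ℕ) (hq : q + 1 < n) (i : ℕ) :
    rk (v * sr q hq) i (q + 1) = rk v i q + if i ≤ (v (q1 q hq)).val then 1 else 0 := by
  rw [rk_q1 (v * sr q hq) q hq i, rk_mul_sr_ne v q hq i q (by omega)]
  simp [Equiv.Perm.mul_apply, sr_q0]

/-- equal rank functions for one `k` means equal sets of values at the first `k` positions -/
theorem image_eq_of_rk_eq {v w : Equiv.Perm (Fin n)} {k : ℕ} (h : ∀ i, rk w i k = rk v i k) :
    (univ.filter fun j : Fin n => j.val < k).image w =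
      (univ.filter fun j : Fin n => j.val < k).image v := by
  classical
  have hc : ∀ u : Equiv.Perm (Fin n), ∀ i : ℕ, rk u i k =
      (((univ.filter fun j : Fin n => j.val < k).image u).filter fun x => i ≤ x.val).card := by
    intro u i
    unfold rk
    rw [filter_image, card_image_of_injective _ u.injective, filter_filter]
  ext x
  have h1 := h x.val
  have h2 := h (x.val + 1)
  rw [hc w, hc v] at h1 h2
  have key : ∀ S : Finset (Fin n), (S.filter fun y => x.val ≤ y.val).card
      = (S.filter fun y => x.val + 1 ≤ y.val).card + if x ∈ S then 1 else 0 := by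
    intro S
    have e : S.filter (fun y => x.val ≤ y.val) = S.filter (fun y => x.val + 1 ≤ y.val)
        ∪ (if x ∈ S then {x} else ∅) := by
      ext y
      simp only [mem_filter, mem_union]
      constructor
      · rintro ⟨hy, hxy⟩
        rcases Nat.lt_or_ge x.val y.val with h | h
        · exact Or.inl ⟨hy, h⟩
        · right
          have : y = x := Fin.ext (by omega)
          subst this
          rw [if_pos hy]
          simp
      · rintro (⟨hy, hxy⟩ | hy)
        · exact ⟨hy, by omega⟩
        · split_ifs at hy with hx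
          · rw [mem_singleton] at hy
            subst hy
            exact ⟨hx, le_rfl⟩
          · simp at hy
    rw [e, card_union_of_disjoint]
    · split_ifs <;> simp
    · rw [disjoint_left]
      intro y hy hy'
      simp only [mem_filter] at hy
      split_ifs at hy' with hx
      · rw [mem_singleton] at hy'
        subst hy'
        omega
      · simp at hy'
  rw [key, key] at h1
  by_cases hw : x ∈ (univ.filter fun j : Fin n => j.val < k).image w <;>
  by_cases hv : x ∈ (univ.filter fun j : Fin n => j.val < k).image v <;>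
  simp only [hw, hv, if_true, if_false] at h1 ⊢
  · omega
  · omega

end CMT
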