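import Pool.Agent.H43.CM.B.B0

/-!
# CM, job B1: length of `v * s_q`  (B1)

Proof. `len v` counts the inversions `(a, b)`, `a < b`, `v b < v a`. The map `(a, b) ↦ (s a, s b)`
(`s = sr q hq`) is a bijection from the inversions of `v` different from `(q, q+1)` to the inversions of
`v * s` different from `(q, q+1)`: for a pair `a < b` with `(a, b) ≠ (q, q+1)` also `s a < s b`, and
`(v * s) (s a) = v a`. If `v q < v (q+1)` the pair `(q, q+1)` is an inversion of `v * s` and not of `v`.
`len_mul_dsc`: apply `len_mul_asc` to `v * s`.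
-/

open Finset

noncomputable section

namespace CMT

variable {n : ℕ}

private theorem b1_key (q : ℕ) (hq : q + 1 < n) {a b : Fin n} (hab : a < b)
    (h : ¬ (a = q0 q hq ∧ b = q1 q hq)) : sr q hq a < sr q hq b := by
  have e0 : (q0 q hq).val = q := rfl
  have e1 : (q1 q hq).val = q + 1 := rfl
  by_cases ha0 : a = q0 q hq
  · have hb1 : b ≠ q1 q hq := fun hb => h ⟨ha0, hb⟩
    have hb0 : b ≠ q0 q hq := by rintro rfl; rw [ha0] at hab; exact lt_irrefl _ hab
    rw [ha0, sr_q0, sr_ne q hq hb0 hb1]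
    rw [Fin.lt_def] at hab ⊢
    have h1 : b.val ≠ q + 1 := fun hh => hb1 (Fin.ext hh)
    rw [ha0, e0] at hab
    rw [e1]
    omega
  · by_cases ha1 : a = q1 q hq
    · have hb1 : b ≠ q1 q hq := by rintro rfl; rw [ha1] at hab; exact lt_irrefl _ hab
      have hb0 : b ≠ q0 q hq := by
        rintro rfl
        rw [ha1] at hab
        exact absurd hab (not_lt_of_gt (q0_lt_q1 q hq))
      rw [ha1, sr_q1, sr_ne q hq hb0 hb1]
      rw [ha1] at hab
      exact (q0_lt_q1 q hq).trans hab
    · rw [sr_ne q hq ha0 ha1]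
      by_cases hb0 : b = q0 q hq
      · rw [hb0, sr_q0]
        rw [hb0] at hab
        exact hab.trans (q0_lt_q1 q hq)
      · by_cases hb1 : b = q1 q hq
        · rw [hb1, sr_q1]
          rw [hb1] at hab
          rw [Fin.lt_def] at hab ⊢
          have h1 : a.val ≠ q := fun hh => ha0 (Fin.ext hh)
          rw [e1] at hab
          rw [e0]
          omega
        · rw [sr_ne q hq hb0 hb1]
          exact hab

theorem len_mul_asc (v : Equiv.Perm (Fin n)) (q : ℕ) (hq : q + 1 < n) (h : asc v q hq) :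
    len (v * sr q hq) = len v + 1 := by
  classical
  unfold len
  have hmem : (q0 q hq, q1 q hq) ∈ (Finset.univ.filter fun p : Fin n × Fin n =>
      p.1 < p.2 ∧ (v * sr q hq) p.2 < (v * sr q hq) p.1) := by
    rw [mem_filter]
    refine ⟨mem_univ _, q0_lt_q1 q hq, ?_⟩
    simp only [Equiv.Perm.mul_apply, sr_q0, sr_q1]
    exact h
  rw [← Finset.card_erase_add_one hmem]
  congr 1
  symm
  refine Finset.card_bij (fun p _ => (sr q hq p.1, sr q hq p.2)) ?_ ?_ ?_
  · intro p hp
    rw [mem_filter] at hp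
    obtain ⟨-, h1, h2⟩ := hp
    have hne : ¬ (p.1 = q0 q hq ∧ p.2 = q1 q hq) := by
      rintro ⟨h3, h4⟩
      rw [h3, h4] at h2
      exact absurd h2 (not_lt_of_gt h)
    have hk := b1_key q hq h1 hne
    rw [mem_erase, mem_filter]
    refine ⟨?_, mem_univ _, hk, ?_⟩
    · intro heq
      rw [Prod.mk.injEq] at heq
      have h3 : p.1 = q1 q hq := by
        rw [← sr_sr_apply q hq p.1, heq.1, sr_q0]
      have h4 : p.2 = q0 q hq := by
        rw [← sr_sr_apply q hq p.2, heq.2, sr_q1]
      rw [h3, h4] at h1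
      exact absurd h1 (not_lt_of_gt (q0_lt_q1 q hq))
    · simp only [Equiv.Perm.mul_apply, sr_sr_apply]
      exact h2
  · intro p _ p' _ heq
    rw [Prod.mk.injEq] at heq
    exact Prod.ext ((sr q hq).injective heq.1) ((sr q hq).injective heq.2)
  · intro r hr
    rw [mem_erase, mem_filter] at hr
    obtain ⟨hne, -, h1, h2⟩ := hr
    have hne' : ¬ (r.1 = q0 q hq ∧ r.2 = q1 q hq) := by
      rintro ⟨h3, h4⟩
      exact hne (Prod.ext h3 h4)
    have hk := b1_key q hq h1 hne'
    refine ⟨(sr q hq r.1, sr q hq r.2), ?_, ?_⟩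
    · rw [mem_filter]
      exact ⟨mem_univ _, hk, h2⟩
    · simp only [sr_sr_apply]

theorem len_mul_dsc (v : Equiv.Perm (Fin n)) (q : ℕ) (hq : q + 1 < n) (h : dsc v q hq) :
    len (v * sr q hq) + 1 = len v := by
  have h1 : asc (v * sr q hq) q hq := (asc_mul_iff v q hq).mpr h
  have h2 := len_mul_asc _ q hq h1
  rw [mul_sr_sr] at h2
  exact h2.symm

end CMT
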